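import Pool.Agent.KS6_21.MC.Main

/-!
# The mirror codes with parameters `[[n, n - 2, 2]]` (MP_91138c_lc)

These parameters are dominated by no code at all. The mirror codes of finite groups of order at
least six which have them are determined: they are the `(G, A, B)` with `A ≠ B` and
`A, B ∈ {H, G - H, G}` for a subgroup `H` of index two. In particular the negative answer to Q1 is
witnessed by exactly those non-abelian groups, as far as these parameters are concerned, which have
a subgroup of index two.
-/

set_option autoImplicit false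

namespace Pool.Agent.Results.MP_91138c_lc.HalfGroupCodes

/-- The two-element field. -/
abbrev F2 := ZMod 2

/-- Pauli operators up to phase on qubits indexed by `ι`; `(u i).1` is the `X` part and
`(u i).2` the `Z` part at the qubit `i`. -/
abbrev Pauli (ι : Type) := ι → F2 × F2

/-- The symplectic form; two Pauli operators commute iff it vanishes. -/
def omega {ι : Type} [Fintype ι] (u v : Pauli ι) : F2 :=
  ∑ i, ((u i).1 * (v i).2 + (u i).2 * (v i).1)

/-- The number of qubits acted on nontrivially. -/
def weight {ι : Type} [Fintype ι] (u : Pauli ι) : ℕ := (Finset.univ.filter fun i => u i ≠ 0).card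

/-- The checks commute pairwise (the code is valid). -/
def Commuting {ι : Type} [Fintype ι] (S : ι → Pauli ι) : Prop := ∀ g h, omega (S g) (S h) = 0

/-- The span of the checks. -/
def spanV {ι : Type} (S : ι → Pauli ι) : Submodule F2 (Pauli ι) := Submodule.span F2 (Set.range S)

/-- `k = n - dim V`. -/
noncomputable def codeK {ι : Type} [Fintype ι] (S : ι → Pauli ι) : ℕ :=
  Fintype.card ι - Module.finrank F2 (spanV S)

/-- `d`: the least weight of a Pauli operator commuting with all checks but not in `V`. -/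
noncomputable def codeD {ι : Type} [Fintype ι] (S : ι → Pauli ι) : ℕ :=
  sInf {w | ∃ u : Pauli ι, (∀ g, omega u (S g) = 0) ∧ u ∉ spanV S ∧ weight u = w}

/-- Symmetric mirror checks `Z(A g) X(B g⁻¹)`. -/
def symCheck {G : Type} [Group G] [DecidableEq G] (A B : Finset G) (g : G) : Pauli G := fun q =>
  (if q ∈ B.image (fun b => b * g⁻¹) then 1 else 0, if q ∈ A.image (fun a => a * g) then 1 else 0)

/-- Asymmetric mirror checks `Z(A g) X(g⁻¹ B)`. -/
def asymCheck {G : Type} [Group G] [DecidableEq G] (A B : Finset G) (g : G) : Pauli G := fun q =>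
  (if q ∈ B.image (fun b => g⁻¹ * b) then 1 else 0, if q ∈ A.image (fun a => a * g) then 1 else 0)

/-- `[[n',k',d']]` dominates `[[n,k,d]]` (for `k = 0` the condition on `d` is void). -/
def Dominates (n' k' d' n k d : ℕ) : Prop :=
  n' ≤ n ∧ k ≤ k' ∧ (k = 0 ∨ d ≤ d') ∧ (n' < n ∨ k < k' ∨ d < d')

/-- The checks `S` give the parameters `[[n, n - 2, 2]]`. -/
def HasParams {ι : Type} [Fintype ι] (S : ι → Pauli ι) : Prop :=
  codeK S = Fintype.card ι - 2 ∧ codeD S = 2

/-- `C` is one of the sets `H`, `G - H`, `G`. -/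
def Piece {G : Type} [Group G] (H : Subgroup G) (C : Finset G) : Prop :=
  (∀ x, x ∈ C ↔ x ∈ H) ∨ (∀ x, x ∈ C ↔ x ∉ H) ∨ ∀ x, x ∈ C

/-- `A` and `B` are two different sets among `H`, `G - H`, `G`, for a subgroup `H` of index two. -/
def HalfPair {G : Type} [Group G] (A B : Finset G) : Prop :=
  ∃ H : Subgroup G, H.index = 2 ∧ A ≠ B ∧ Piece H A ∧ Piece H B

/-- (1) Let `G` be a finite group of order `n ≥ 6`. For `A, B ⊆ G` the symmetric mirror checks have
the parameters `[[n, n - 2, 2]]` iff the asymmetric ones have them iff `(A, B)` is a pair of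
different sets among `H`, `G - H`, `G` for a subgroup `H` of index two; in this case the symmetric
and the asymmetric checks coincide and commute. So `G` has a valid symmetric (asymmetric) mirror
code with these parameters iff it has a subgroup of index two. (2) These parameters are dominated
by those of no family of Pauli operators, indexed by and acting on any finite set of qubits, in
particular by those of no mirror code. (3) For every `m ≥ 3` the dihedral group of order `2m` is
not abelian and has a subgroup of index two. -/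
theorem result :
    (∀ (G : Type) [Group G] [Fintype G] [DecidableEq G], 6 ≤ Fintype.card G →
      (∀ A B : Finset G,
        (HasParams (symCheck A B) ↔ HalfPair A B) ∧
        (HasParams (asymCheck A B) ↔ HalfPair A B) ∧
        (HalfPair A B → symCheck A B = asymCheck A B ∧ Commuting (symCheck A B))) ∧
      ((∃ A B : Finset G, Commuting (symCheck A B) ∧ HasParams (symCheck A B)) ↔
        ∃ H : Subgroup G, H.index = 2) ∧
      ((∃ A B : Finset G, Commuting (asymCheck A B) ∧ HasParams (asymCheck A B)) ↔
        ∃ H : Subgroup G, H.index = 2)) ∧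
    (∀ n : ℕ, 6 ≤ n → ∀ (Q : Type) [Fintype Q] (S : Q → Pauli Q),
      ¬ Dominates (Fintype.card Q) (codeK S) (codeD S) n (n - 2) 2) ∧
    (∀ m : ℕ, 3 ≤ m → Nat.card (DihedralGroup m) = 2 * m ∧
      (∃ x y : DihedralGroup m, x * y ≠ y * x) ∧
      ∃ H : Subgroup (DihedralGroup m), H.index = 2) := by
  have e1 : ∀ (G : Type) [Group G] [Fintype G] [DecidableEq G], 6 ≤ Fintype.card G →
      ∀ A B : Finset G, HasParams (symCheck A B) ↔ HalfPair A B :=
    fun G _ _ _ h6 A B => KS6_21.MC.sym_iff A B h6
  have e2 : ∀ (G : Type) [Group G] [Fintype G] [DecidableEq G], 6 ≤ Fintype.card G →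
      ∀ A B : Finset G, HasParams (asymCheck A B) ↔ HalfPair A B :=
    fun G _ _ _ h6 A B => KS6_21.MC.asym_iff A B h6
  have e3 : ∀ (G : Type) [Group G] [Fintype G] [DecidableEq G], 6 ≤ Fintype.card G →
      ∀ A B : Finset G, HalfPair A B → symCheck A B = asymCheck A B ∧ Commuting (symCheck A B) := by
    rintro G _ _ _ h6 A B ⟨H, hH, hAB, hA, hB⟩
    have h := KS6_21.MC.backward A B h6 H hH hAB hA hB
    exact ⟨h.1, h.2.1⟩
  refine ⟨fun G _ _ _ h6 => ⟨fun A B => ⟨e1 G h6 A B, e2 G h6 A B, e3 G h6 A B⟩, ?_, ?_⟩,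
    fun n hn Q _ S => KS6_21.MC.not_dominated hn Q S, fun m hm => KS6_21.MC.dihedral m hm⟩
  · constructor
    · rintro ⟨A, B, -, h⟩
      obtain ⟨H, hH, -⟩ := (e1 G h6 A B).1 h
      exact ⟨H, hH⟩
    · rintro ⟨H, hH⟩
      obtain ⟨A, B, h⟩ := KS6_21.MC.exists_pieces H hH
      have hp : HalfPair A B := ⟨H, hH, h⟩
      exact ⟨A, B, (e3 G h6 A B hp).2, (e1 G h6 A B).2 hp⟩
  · constructor
    · rintro ⟨A, B, -, h⟩
      obtain ⟨H, hH, -⟩ := (e2 G h6 A B).1 h
      exact ⟨H, hH⟩
    · rintro ⟨H, hH⟩
      obtain ⟨A, B, h⟩ := KS6_21.MC.exists_pieces H hH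
      have hp : HalfPair A B := ⟨H, hH, h⟩
      have h3 := e3 G h6 A B hp
      exact ⟨A, B, h3.1 ▸ h3.2, (e2 G h6 A B).2 hp⟩

end Pool.Agent.Results.MP_91138c_lc.HalfGroupCodes
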